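import Mathlib

namespace Pool.Agent.Results.MP_966169_pr.TailRatio

open MeasureTheory Set Filter Topology

/-- Admissible laws: absolutely continuous probability laws on `[0, ∞)`, not compactly supported. -/
def Adm (μ : Measure ℝ) : Prop :=
  IsProbabilityMeasure μ ∧ μ ≪ volume ∧ μ (Iio 0) = 0 ∧ ∀ t : ℝ, 0 < μ (Ioi t)

/-- The ratio `R(z)` for two independent variables with law `μ`. -/
noncomputable def R (μ : Measure ℝ) (z : ℝ) : ℝ :=
  (μ.prod μ).real {p : ℝ × ℝ | 2 * z ≤ p.1 + p.2 ∧ min p.1 p.2 ≤ z} /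
    (μ.prod μ).real {p : ℝ × ℝ | 2 * z ≤ p.1 + p.2 ∧ z ≤ min p.1 p.2}

/-- The medians of `μ`. -/
def Medians (μ : Measure ℝ) : Set ℝ := {m | 0 ≤ m ∧ μ.real (Iic m) = 1 / 2}

lemma den (μ : Measure ℝ) [SFinite μ] (z : ℝ) :
    (μ.prod μ).real {p : ℝ × ℝ | 2 * z ≤ p.1 + p.2 ∧ z ≤ min p.1 p.2} = μ.real (Ici z) ^ 2 := by
  have : {p : ℝ × ℝ | 2 * z ≤ p.1 + p.2 ∧ z ≤ min p.1 p.2} = Ici z ×ˢ Ici z := by
    ext p
    simp only [mem_ofPred_eq, le_min_iff, mem_prod, mem_Ici]
    constructor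
    · exact fun h => h.2
    · exact fun h => ⟨by linarith [h.1, h.2], h⟩
  rw [this, measureReal_def, Measure.prod_prod, ENNReal.toReal_mul, ← measureReal_def, sq]

lemma num_lower (μ : Measure ℝ) [IsProbabilityMeasure μ] (a b z : ℝ) (haz : a ≤ z) (hb : z ≤ b)
    (hab : 2 * z ≤ a + b) :
    2 * (μ.real (Ici a) - μ.real (Ici z)) * μ.real (Ici b) ≤
      (μ.prod μ).real {p : ℝ × ℝ | 2 * z ≤ p.1 + p.2 ∧ min p.1 p.2 ≤ z} := by
  have h1 : μ.real (Ico a z) = μ.real (Ici a) - μ.real (Ici z) := by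
    rw [← Ici_diff_Ici, measureReal_diff (Ici_subset_Ici.mpr haz) measurableSet_Ici]
  have hsub : (Ico a z ×ˢ Ici b) ∪ (Ici b ×ˢ Ico a z) ⊆
      {p : ℝ × ℝ | 2 * z ≤ p.1 + p.2 ∧ min p.1 p.2 ≤ z} := by
    rintro p (⟨⟨h1, h2⟩, h3⟩ | ⟨h3, ⟨h1, h2⟩⟩)
    · exact ⟨by linarith [mem_Ici.mp h3], (min_le_left _ _).trans h2.le⟩
    · exact ⟨by linarith [mem_Ici.mp h3], (min_le_right _ _).trans h2.le⟩
  have hdis : Disjoint (Ico a z ×ˢ Ici b) (Ici b ×ˢ Ico a z) := by
    rw [Set.disjoint_left]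
    rintro p ⟨⟨_, h2⟩, _⟩ ⟨h3, _⟩
    linarith [mem_Ici.mp h3]
  have h2 := measureReal_mono (μ := μ.prod μ) hsub
  rw [measureReal_union hdis (measurableSet_Ici.prod measurableSet_Ico)] at h2
  simp only [measureReal_def, Measure.prod_prod, ENNReal.toReal_mul] at h2 h1 ⊢
  rw [h1] at h2
  linarith

lemma noAtoms {μ : Measure ℝ} (h : μ ≪ volume) : NullSingletonClass μ :=
  ⟨fun x => h (measure_singleton x)⟩

lemma key (μ : Measure ℝ) (hμ : Adm μ) (m : ℝ) (hm : 0 < m) (hG : μ.real (Ici m) ≤ 1 / 2) :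
    ∃ z > 0, 1 / 10 * z / m ≤ R μ z := by
  obtain ⟨hp, -, h0, hpos⟩ := hμ
  by_contra hcon
  push Not at hcon
  set G : ℝ → ℝ := fun x => μ.real (Ici x) with hGdef
  have Gpos : ∀ x, 0 < G x := fun x =>
    ENNReal.toReal_pos ((hpos x).trans_le (measure_mono Ioi_subset_Ici_self)).ne'
      (measure_ne_top _ _)
  have Ganti : ∀ x y, x ≤ y → G y ≤ G x := fun x y h => measureReal_mono (Ici_subset_Ici.mpr h)
  have G0 : G 0 = 1 := by
    have := measureReal_compl (μ := μ) (s := Iio (0 : ℝ)) measurableSet_Iio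
    rw [compl_Iio] at this
    show μ.real (Ici 0) = 1
    rw [this, probReal_univ, measureReal_def, h0]
    simp
  have hN : ∀ a b z, 0 < z → a ≤ z → z ≤ b → 2 * z ≤ a + b →
      2 * (G a - G z) * G b < 1 / 10 * z / m * G z ^ 2 := by
    intro a b z hz h1 h2 h3
    have := hcon z hz
    rw [R, den, div_lt_iff₀ (pow_pos (Gpos z) 2)] at this
    exact (num_lower μ a b z h1 h2 h3).trans_lt this
  have hGm : G m ≤ 1 / 2 := hG
  have h2m : G (2 * m) ≤ G m / 20 := by
    have := hN 0 (2 * m) m hm hm.le (by linarith) (by linarith)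
    rw [G0, mul_div_assoc, div_self hm.ne'] at this
    nlinarith [Gpos m, Gpos (2 * m)]
  let D : ℝ → ℝ := fun x => (3 * m - x) / G x
  have hbdd : BddAbove (D '' Icc 0 (3 * m)) := by
    refine ⟨3 * m / G (3 * m), ?_⟩
    rintro _ ⟨x, ⟨hx0, hx1⟩, rfl⟩
    exact div_le_div₀ (by linarith) (by linarith) (Gpos _) (Ganti _ _ hx1)
  set S := sSup (D '' Icc 0 (3 * m)) with hS
  have hle : ∀ x, 0 ≤ x → x ≤ 3 * m → 3 * m - x ≤ S * G x := by
    intro x h1 h2
    have : D x ≤ S := le_csSup hbdd ⟨x, ⟨h1, h2⟩, rfl⟩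
    exact (div_le_iff₀ (Gpos x)).mp this
  have hS2 : 20 * m ≤ S * G m := by
    have h := hle (2 * m) (by linarith) (by linarith)
    have hS0 : 0 < S := by
      by_contra hn
      push Not at hn
      nlinarith [Gpos (2 * m)]
    nlinarith
  have hS0 : 0 < S := by
    by_contra hn
    push Not at hn
    nlinarith [Gpos m]
  obtain ⟨_, ⟨z, ⟨hz0, hz1⟩, rfl⟩, hz⟩ := exists_lt_of_lt_csSup
    (s := D '' Icc 0 (3 * m)) (b := 9 / 10 * S) ⟨_, 0, ⟨le_rfl, by linarith⟩, rfl⟩ (by linarith)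
  have hz' : 9 / 10 * S * G z < 3 * m - z := (lt_div_iff₀ (Gpos z)).mp hz
  have hzm : m ≤ z := by
    by_contra hn
    push Not at hn
    have := mul_le_mul_of_nonneg_left (Ganti _ _ hn.le) hS0.le
    nlinarith
  have hr : 0 < 3 * m - z := by nlinarith [Gpos z, mul_pos hS0 (Gpos z)]
  have e1 := hle (z - (3 * m - z) / 2) (by linarith) (by linarith)
  have e2 := hle (z + (3 * m - z) / 2) (by linarith) (by linarith)
  have f1 : 27 / 20 * G z ≤ G (z - (3 * m - z) / 2) := by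
    apply le_of_mul_le_mul_left _ hS0
    linarith
  have f2 : 9 / 20 * G z ≤ G (z + (3 * m - z) / 2) := by
    apply le_of_mul_le_mul_left _ hS0
    linarith
  have h := hN (z - (3 * m - z) / 2) (z + (3 * m - z) / 2) z (by linarith) (by linarith)
    (by linarith) (by linarith)
  have h3 : 1 / 10 * z / m ≤ 3 / 10 := by
    rw [div_le_iff₀ hm]; linarith
  have h4 := mul_le_mul_of_nonneg_right h3 (sq_nonneg (G z))
  have h5 : 2 * (7 / 20 * G z) * (9 / 20 * G z) ≤
      2 * (G (z - (3 * m - z) / 2) - G z) * G (z + (3 * m - z) / 2) := by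
    apply mul_le_mul _ f2 (by linarith [Gpos z]) (by linarith [Gpos z])
    linarith
  nlinarith [Gpos z]

noncomputable def f (x : ℝ) : ℝ := (2 + x) / 3 * Real.exp (-x)
noncomputable def G (x : ℝ) : ℝ := (1 + x / 3) * Real.exp (-x)
noncomputable def μ0 : Measure ℝ :=
  (volume.restrict (Ioi 0)).withDensity (fun x => ENNReal.ofReal (f x))

lemma f_meas : Measurable (fun x => ENNReal.ofReal (f x)) := by
  unfold f; fun_prop

lemma f_nonneg (x : ℝ) (hx : 0 ≤ x) : 0 ≤ f x := by unfold f; positivity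

lemma G_pos (x : ℝ) (hx : 0 ≤ x) : 0 < G x := by unfold G; positivity

lemma dE (x : ℝ) : HasDerivAt (fun x => Real.exp (-x)) (-Real.exp (-x)) x := by
  simpa using (hasDerivAt_neg x).exp

lemma dG (x : ℝ) : HasDerivAt (fun x => -G x) (f x) x := by
  have h := ((((hasDerivAt_id x).div_const 3).const_add 1).mul (dE x)).neg
  refine h.congr_deriv ?_
  simp only [f, id]; ring

lemma tG : Tendsto (fun x => -G x) atTop (𝓝 0) := by
  have h0 := Real.tendsto_pow_mul_exp_neg_atTop_nhds_zero 0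
  have h1 := Real.tendsto_pow_mul_exp_neg_atTop_nhds_zero 1
  have := (h0.add (h1.div_const 3)).neg
  simp only [zero_div, add_zero, neg_zero] at this
  refine this.congr fun x => ?_
  simp only [G]; ring

lemma ac : μ0 ≪ volume :=
  (withDensity_absolutelyContinuous _ _).trans Measure.restrict_le_self.absolutelyContinuous

lemma tailo (t : ℝ) (ht : 0 ≤ t) : μ0 (Ioi t) = ENNReal.ofReal (G t) := by
  have hi := integrableOn_Ioi_deriv_of_nonneg' (a := t) (fun x _ => dG x)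
    (fun x hx => f_nonneg x (ht.trans (le_of_lt hx))) tG
  have he := integral_Ioi_of_hasDerivAt_of_nonneg' (a := t) (fun x _ => dG x)
    (fun x hx => f_nonneg x (ht.trans (le_of_lt hx))) tG
  rw [μ0, withDensity_apply _ measurableSet_Ioi, Measure.restrict_restrict measurableSet_Ioi,
    inter_eq_left.mpr (Ioi_subset_Ioi ht), ← ofReal_integral_eq_lintegral_ofReal hi, he]
  · simp
  · filter_upwards [ae_restrict_mem measurableSet_Ioi] with x hx
    exact f_nonneg x (ht.trans (le_of_lt hx))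

lemma tailc (t : ℝ) (ht : 0 ≤ t) : μ0 (Ici t) = ENNReal.ofReal (G t) := by
  have := noAtoms ac
  rw [← tailo t ht, measure_congr Ioi_ae_eq_Ici]

lemma neg0 : μ0 (Iio 0) = 0 := by
  rw [μ0, withDensity_apply _ measurableSet_Iio, Measure.restrict_restrict measurableSet_Iio]
  have : Iio (0 : ℝ) ∩ Ioi 0 = ∅ := by
    ext x; simp only [mem_inter_iff, mem_Iio, mem_Ioi, mem_empty_iff_false, iff_false]
    rintro ⟨h1, h2⟩; linarith
  simp [this]

instance prob : IsProbabilityMeasure μ0 := ⟨by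
  rw [← Iio_union_Ici (a := (0 : ℝ)), measure_union (by simp) measurableSet_Ici, neg0,
    tailc 0 le_rfl]
  simp [G]⟩

lemma adm : Adm μ0 := by
  refine ⟨prob, ac, neg0, fun t => ?_⟩
  have : 0 < μ0 (Ioi (max t 0)) := by
    rw [tailo _ (le_max_right _ _)]
    exact ENNReal.ofReal_pos.mpr (G_pos _ (le_max_right _ _))
  exact this.trans_le (measure_mono (Ioi_subset_Ioi (le_max_left _ _)))

lemma half (z : ℝ) (hz : 0 < z) :
    ∫⁻ x, (Iic z).indicator (fun x => ENNReal.ofReal (G (2 * z - x))) x ∂μ0 =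
      ENNReal.ofReal (Real.exp (-(2 * z)) * (2 / 3 * z + z ^ 2 / 2 + 2 / 27 * z ^ 3)) := by
  have hm : Measurable (fun x => ENNReal.ofReal (G (2 * z - x))) := by unfold G; fun_prop
  rw [lintegral_indicator measurableSet_Iic, μ0,
    setLIntegral_withDensity_eq_setLIntegral_mul _ f_meas hm measurableSet_Iic,
    Measure.restrict_restrict measurableSet_Iic, inter_comm, Ioi_inter_Iic]
  have h1 : ∫⁻ x in Ioc 0 z, ((fun x => ENNReal.ofReal (f x)) *
      fun x => ENNReal.ofReal (G (2 * z - x))) x =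
      ∫⁻ x in Ioc 0 z, ENNReal.ofReal (Real.exp (-(2 * z)) * ((2 + x) * (3 + 2 * z - x) / 9)) := by
    apply setLIntegral_congr_fun measurableSet_Ioc
    intro x hx
    simp only [Pi.mul_apply]
    rw [← ENNReal.ofReal_mul (f_nonneg x hx.1.le)]
    congr 1
    have : Real.exp (-(2 * z)) = Real.exp (-x) * Real.exp (-(2 * z - x)) := by
      rw [← Real.exp_add]; congr 1; ring
    rw [this]; simp only [f, G]; ring
  rw [h1, ← ofReal_integral_eq_lintegral_ofReal, ← intervalIntegral.integral_of_le hz.le]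
  · congr 1
    rw [intervalIntegral.integral_const_mul]
    congr 1
    have hd : ∀ x ∈ uIcc 0 z, HasDerivAt
        (fun x : ℝ => ((6 + 4 * z) * x + (1 + 2 * z) * x ^ 2 / 2 - x ^ 3 / 3) / 9)
        ((2 + x) * (3 + 2 * z - x) / 9) x := by
      intro x _
      have h := (((((hasDerivAt_id x).const_mul (6 + 4 * z)).add
        (((hasDerivAt_pow 2 x).const_mul (1 + 2 * z)).div_const 2)).sub
        ((hasDerivAt_pow 3 x).div_const 3))).div_const 9
      refine h.congr_deriv ?_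
      simp; ring
    rw [intervalIntegral.integral_eq_sub_of_hasDerivAt hd (Continuous.intervalIntegrable
      (by fun_prop) _ _)]
    ring
  · exact (Continuous.integrableOn_Icc (by fun_prop)).mono_set Ioc_subset_Icc_self
  · filter_upwards [ae_restrict_mem measurableSet_Ioc] with x hx
    have h1 := hx.1
    have h2 : 0 ≤ 3 + 2 * z - x := by linarith [hx.2]
    simp only [Pi.zero_apply]
    positivity

lemma num_upper (z : ℝ) (hz : 0 < z) :
    (μ0.prod μ0).real {p : ℝ × ℝ | 2 * z ≤ p.1 + p.2 ∧ min p.1 p.2 ≤ z} ≤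
      2 * (Real.exp (-(2 * z)) * (2 / 3 * z + z ^ 2 / 2 + 2 / 27 * z ^ 3)) := by
  let S1 : Set (ℝ × ℝ) := {p | p.1 ≤ z ∧ 2 * z - p.1 ≤ p.2}
  let S2 : Set (ℝ × ℝ) := {p | p.2 ≤ z ∧ 2 * z - p.2 ≤ p.1}
  have m1 : MeasurableSet S1 :=
    (measurableSet_le measurable_fst measurable_const).inter
      (measurableSet_le (by fun_prop) measurable_snd)
  have m2 : MeasurableSet S2 :=
    (measurableSet_le measurable_snd measurable_const).inter
      (measurableSet_le (by fun_prop) measurable_fst)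
  have hsub : {p : ℝ × ℝ | 2 * z ≤ p.1 + p.2 ∧ min p.1 p.2 ≤ z} ⊆ S1 ∪ S2 := by
    rintro p ⟨h1, h2⟩
    rcases min_le_iff.mp h2 with h | h
    · exact Or.inl ⟨h, by linarith⟩
    · exact Or.inr ⟨h, by linarith⟩
  have sec : ∀ x, μ0 {y | x ≤ z ∧ 2 * z - x ≤ y} =
      (Iic z).indicator (fun x => ENNReal.ofReal (G (2 * z - x))) x := by
    intro x
    by_cases hx : x ≤ z
    · rw [indicator_of_mem (mem_Iic.mpr hx), ← tailc _ (by linarith)]
      congr 1
      ext y; simp [hx]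
    · rw [indicator_of_notMem (by simpa using hx)]
      simp [hx]
  have e1 : (μ0.prod μ0) S1 =
      ENNReal.ofReal (Real.exp (-(2 * z)) * (2 / 3 * z + z ^ 2 / 2 + 2 / 27 * z ^ 3)) := by
    rw [Measure.prod_apply m1, ← half z hz]
    exact lintegral_congr fun x => sec x
  have e2 : (μ0.prod μ0) S2 =
      ENNReal.ofReal (Real.exp (-(2 * z)) * (2 / 3 * z + z ^ 2 / 2 + 2 / 27 * z ^ 3)) := by
    rw [Measure.prod_apply_symm m2, ← half z hz]
    exact lintegral_congr fun x => sec x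
  have h := (measureReal_mono (μ := μ0.prod μ0) hsub).trans (measureReal_union_le S1 S2)
  rw [measureReal_def _ S1, measureReal_def _ S2, e1, e2,
    ENNReal.toReal_ofReal (by positivity)] at h
  linarith

lemma R_lt (z : ℝ) (hz : 0 < z) : R μ0 z ≤ 17 / 12 * z := by
  have hG := G_pos z hz.le
  rw [R, den, measureReal_def μ0, tailc z hz.le, ENNReal.toReal_ofReal hG.le,
    div_le_iff₀ (by positivity)]
  refine (num_upper z hz).trans ?_
  have : G z ^ 2 = Real.exp (-(2 * z)) * (1 + z / 3) ^ 2 := by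
    have : Real.exp (-(2 * z)) = Real.exp (-z) ^ 2 := by
      rw [sq, ← Real.exp_add]; congr 1; ring
    rw [this, G]; ring
  rw [this]
  have h : 2 * (2 / 3 * z + z ^ 2 / 2 + 2 / 27 * z ^ 3) ≤ 17 / 12 * z * (1 + z / 3) ^ 2 := by
    nlinarith [mul_nonneg hz.le (sq_nonneg (z - 3))]
  nlinarith [mul_le_mul_of_nonneg_left h (Real.exp_pos (-(2 * z))).le]

lemma dM (x : ℝ) : HasDerivAt (fun x => -((x ^ 2 + 4 * x + 4) / 3 * Real.exp (-x))) (f x * x) x := by
  have h := ((((((hasDerivAt_pow 2 x).add ((hasDerivAt_id x).const_mul 4)).add_const 4).div_const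
    3).mul (dE x))).neg
  refine h.congr_deriv ?_
  simp [f]; ring

lemma tM : Tendsto (fun x => -((x ^ 2 + 4 * x + 4) / 3 * Real.exp (-x))) atTop (𝓝 0) := by
  have h0 := Real.tendsto_pow_mul_exp_neg_atTop_nhds_zero 0
  have h1 := Real.tendsto_pow_mul_exp_neg_atTop_nhds_zero 1
  have h2 := Real.tendsto_pow_mul_exp_neg_atTop_nhds_zero 2
  have := (((h2.add (h1.const_mul 4)).add (h0.const_mul 4)).div_const 3).neg
  simp only [mul_zero, add_zero, zero_div, neg_zero] at this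
  refine this.congr fun x => ?_
  ring

lemma ae_f : (fun x => (ENNReal.ofReal (f x)).toReal • x) =ᵐ[volume.restrict (Ioi 0)]
    fun x => f x * x := by
  filter_upwards [ae_restrict_mem measurableSet_Ioi] with x hx
  rw [ENNReal.toReal_ofReal (f_nonneg x (le_of_lt hx)), smul_eq_mul]

lemma integ : Integrable (fun x : ℝ => x) μ0 := by
  rw [μ0, integrable_withDensity_iff_integrable_smul' f_meas (by simp), integrable_congr ae_f]
  exact integrableOn_Ioi_deriv_of_nonneg' (a := 0) (fun x _ => dM x)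
    (fun x hx => mul_nonneg (f_nonneg x (le_of_lt hx)) (le_of_lt hx)) tM

lemma mean : ∫ x, x ∂μ0 = 4 / 3 := by
  rw [μ0, integral_withDensity_eq_integral_toReal_smul f_meas (by simp), integral_congr_ae ae_f,
    integral_Ioi_of_hasDerivAt_of_nonneg' (a := 0) (fun x _ => dM x)
    (fun x hx => mul_nonneg (f_nonneg x (le_of_lt hx)) (le_of_lt hx)) tM]
  simp

lemma med_iff (m : ℝ) : m ∈ Medians μ0 ↔ 0 ≤ m ∧ G m = 1 / 2 := by
  simp only [Medians, mem_ofPred_eq]
  refine and_congr_right fun hm => ?_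
  have := measureReal_compl (μ := μ0) (s := Ioi m) measurableSet_Ioi
  rw [compl_Ioi, measureReal_def μ0 (Ioi m), tailo m hm,
    ENNReal.toReal_ofReal (G_pos m hm).le] at this
  rw [this]
  simp only [probReal_univ]
  constructor <;> intro h <;> linarith

lemma G_small : G (978 / 1000) < 1 / 2 := by
  have h : (2652 / 1000 : ℝ) < Real.exp (978 / 1000) := by
    have := Real.sum_le_exp_of_nonneg (x := 978 / 1000) (by norm_num) 7
    refine lt_of_lt_of_le ?_ this
    norm_num [Finset.sum_range_succ, Nat.factorial]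
  rw [G, Real.exp_neg, ← div_eq_mul_inv, div_lt_iff₀ (Real.exp_pos _)]
  linarith

lemma med_exists : ∃ m, IsLeast (Medians μ0) m ∧ 0 < m ∧ m ≤ 978 / 1000 := by
  have hc : Continuous G := by unfold G; fun_prop
  have hS : Medians μ0 = Ici 0 ∩ G ⁻¹' {1 / 2} := by
    ext m; rw [med_iff]; simp
  have G0 : G 0 = 1 := by simp [G]
  obtain ⟨m, hm, hm'⟩ : (1 / 2 : ℝ) ∈ G '' Icc 0 (978 / 1000) :=
    intermediate_value_Icc' (by norm_num) hc.continuousOn ⟨G_small.le, by rw [G0]; norm_num⟩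
  have hmem : m ∈ Medians μ0 := (med_iff m).mpr ⟨hm.1, hm'⟩
  have hcl : IsClosed (Medians μ0) := by
    rw [hS]; exact isClosed_Ici.inter (isClosed_singleton.preimage hc)
  have hl := hcl.isLeast_csInf ⟨m, hmem⟩ ⟨0, fun x hx => hx.1⟩
  refine ⟨_, hl, ?_, (hl.2 hmem).trans hm.2⟩
  obtain ⟨h1, h2⟩ := (med_iff _).mp hl.1
  rcases h1.eq_or_lt with h | h
  · rw [← h, G0] at h2; norm_num at h2
  · exact h

theorem result :
    (∃ μ : Measure ℝ, Adm μ ∧ Integrable (fun x : ℝ => x) μ ∧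
      (∃ m, IsLeast (Medians μ) m ∧ ∀ z > 0, R μ z < 2 * Real.log 2 * z / m) ∧
      ∀ z > 0, R μ z < 2 * z / ∫ x, x ∂μ) ∧
    (∀ μ : Measure ℝ, Adm μ → ∀ m ∈ Medians μ, 0 < m ∧ ∃ z > 0, 1 / 10 * z / m ≤ R μ z) ∧
    (∀ μ : Measure ℝ, Adm μ → Integrable (fun x : ℝ => x) μ →
      0 < ∫ x, x ∂μ ∧ ∃ z > 0, 1 / 20 * z / (∫ x, x ∂μ) ≤ R μ z) := by
  refine ⟨⟨μ0, adm, integ, ?_, ?_⟩, ?_, ?_⟩
  · obtain ⟨m, hm, h0, h1⟩ := med_exists
    refine ⟨m, hm, fun z hz => (R_lt z hz).trans_lt ?_⟩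
    rw [lt_div_iff₀ h0]
    have := Real.log_two_gt_d9
    have h2 : 17 / 12 * m < 2 * Real.log 2 := by linarith
    nlinarith
  · intro z hz
    rw [mean]
    refine (R_lt z hz).trans_lt ?_
    rw [lt_div_iff₀ (by norm_num)]
    linarith
  · intro μ hμ m hm
    have := hμ.1
    have := noAtoms hμ.2.1
    have hm0 : 0 < m := by
      rcases hm.1.eq_or_lt with h | h
      · have h2 := hm.2
        rw [← h, measureReal_def, ← measure_congr Iio_ae_eq_Iic, hμ.2.2.1] at h2
        norm_num at h2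
      · exact h
    refine ⟨hm0, key μ hμ m hm0 ?_⟩
    have h1 := measureReal_compl (μ := μ) (s := Iic m) measurableSet_Iic
    rw [compl_Iic, hm.2, probReal_univ] at h1
    rw [measureReal_def, ← measure_congr Ioi_ae_eq_Ici, ← measureReal_def, h1]
    norm_num
  · intro μ hμ hi
    have := hμ.1
    have hnn : 0 ≤ᵐ[μ] fun x : ℝ => x := by
      rw [EventuallyLE, ae_iff]
      simpa [Iio] using hμ.2.2.1
    have h1 := mul_meas_ge_le_integral_of_nonneg hnn hi 1
    have h2 : 0 < μ.real {x : ℝ | 1 ≤ x} :=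
      ENNReal.toReal_pos ((hμ.2.2.2 1).trans_le (measure_mono Ioi_subset_Ici_self)).ne'
        (measure_ne_top _ _)
    have hE : 0 < ∫ x, x ∂μ := by linarith
    refine ⟨hE, ?_⟩
    have h3 := mul_meas_ge_le_integral_of_nonneg hnn hi (2 * ∫ x, x ∂μ)
    obtain ⟨z, hz, h⟩ := key μ hμ (2 * ∫ x, x ∂μ) (by linarith) (by
      apply le_of_mul_le_mul_left _ (show 0 < 2 * ∫ x, x ∂μ by linarith)
      have : μ.real (Ici (2 * ∫ x, x ∂μ)) = μ.real {x : ℝ | 2 * ∫ x, x ∂μ ≤ x} := rfl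
      rw [this]
      linarith)
    refine ⟨z, hz, le_of_eq_of_le ?_ h⟩
    field_simp
    norm_num

end Pool.Agent.Results.MP_966169_pr.TailRatio
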